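import Mathlib
import Pool.Agent.Q284.NP.Stm

set_option autoImplicit false

/-! JOB SPN (helper259) -/

namespace Pool.Agent.Q259.NP

open IsLocalRing Pool.Agent.Q284.NP

/-- the sums of `p`-th powers times monomials -/
def T (p : ℕ) [Fact p.Prime] (A : Type) [CommRing A] [CharP A p] (n : ℕ) (x : Fin n → A) :
    AddSubmonoid A where
  carrier := {a | ∃ c : (Fin n → Fin p) → A, a = ∑ α, c α ^ p * ∏ i, x i ^ (α i : ℕ)}
  zero_mem' := by
    refine ⟨fun _ => 0, ?_⟩
    have hp : p ≠ 0 := (Fact.out : p.Prime).ne_zero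
    simp [zero_pow hp]
  add_mem' := by
    rintro a b ⟨c, rfl⟩ ⟨d, rfl⟩
    refine ⟨fun α => c α + d α, ?_⟩
    rw [← Finset.sum_add_distrib]
    refine Finset.sum_congr rfl fun α _ => ?_
    rw [add_pow_char, add_mul]

variable {p : ℕ} [hp : Fact p.Prime] {A : Type} [CommRing A] [CharP A p] {n : ℕ} {x : Fin n → A}

theorem mem_T {a : A} :
    a ∈ T p A n x ↔ ∃ c : (Fin n → Fin p) → A, a = ∑ α, c α ^ p * ∏ i, x i ^ (α i : ℕ) := Iff.rfl

theorem mono_mem (b : A) (e : Fin n → ℕ) : b ^ p * ∏ i, x i ^ e i ∈ T p A n x := by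
  classical
  have hp0 : 0 < p := hp.out.pos
  rw [mem_T]
  refine ⟨Pi.single (fun i => (⟨e i % p, Nat.mod_lt _ hp0⟩ : Fin p))
    (b * ∏ i, x i ^ (e i / p)), ?_⟩
  rw [Finset.sum_eq_single (fun i => (⟨e i % p, Nat.mod_lt _ hp0⟩ : Fin p))]
  · rw [Pi.single_eq_same, mul_pow, ← Finset.prod_pow, mul_assoc, ← Finset.prod_mul_distrib]
    congr 1
    refine Finset.prod_congr rfl fun i _ => ?_
    rw [← pow_mul, ← pow_add]
    congr 1
    have := Nat.div_add_mod (e i) p
    rw [Nat.mul_comm]
    exact this.symm
  · intro α _ hα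
    rw [Pi.single_eq_of_ne hα, zero_pow hp0.ne', zero_mul]
  · intro h
    exact absurd (Finset.mem_univ _) h

theorem T_mul {a b : A} (ha : a ∈ T p A n x) (hb : b ∈ T p A n x) : a * b ∈ T p A n x := by
  obtain ⟨c, rfl⟩ := mem_T.1 ha
  obtain ⟨d, rfl⟩ := mem_T.1 hb
  rw [Finset.sum_mul_sum]
  refine sum_mem fun α _ => sum_mem fun β _ => ?_
  have h := mono_mem (p := p) (x := x) (c α * d β) (fun i => (α i : ℕ) + β i)
  have e : (c α ^ p * ∏ i, x i ^ (α i : ℕ)) * (d β ^ p * ∏ i, x i ^ (β i : ℕ)) =
      (c α * d β) ^ p * ∏ i, x i ^ ((α i : ℕ) + β i) := by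
    rw [mul_pow, Finset.prod_congr rfl (fun i _ => pow_add (x i) (α i : ℕ) (β i : ℕ)),
      Finset.prod_mul_distrib]
    ring
  rw [e]
  exact h

theorem spn : S_SPN := by
  intro p hp K A _ _ _ _ _ _ _ hK m g hg n x hx a
  have : CharP A p := charP_of_injective_algebraMap (algebraMap K A).injective p
  have hp0 : 0 < p := hp.out.pos
  obtain ⟨C, hC⟩ : ∃ C : Subalgebra K A,
      C = Algebra.adjoin K (Set.range (fun a : A => a ^ p) ∪ Set.range x) := ⟨_, rfl⟩
  have hpow : ∀ b : A, b ^ p ∈ C := fun b => by
    rw [hC]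
    exact Algebra.subset_adjoin (Or.inl ⟨b, rfl⟩)
  have hxC : ∀ i, x i ∈ C := fun i => by
    rw [hC]
    exact Algebra.subset_adjoin (Or.inr ⟨i, rfl⟩)
  -- elements of `C` have the required form
  have hCT : ∀ b ∈ C, b ∈ T p A n x := by
    intro b hb
    rw [hC] at hb
    induction hb using Algebra.adjoin_induction with
    | mem b hb =>
      rcases hb with ⟨b, rfl⟩ | ⟨i, rfl⟩
      · have := mono_mem (p := p) (x := x) b (fun _ => 0)
        simpa using this
      · classical
        have := mono_mem (p := p) (x := x) 1 (Pi.single i 1)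
        rw [one_pow, one_mul, Finset.prod_eq_single i] at this
        · simpa using this
        · intro j _ hj
          rw [Pi.single_eq_of_ne hj, pow_zero]
        · intro h
          exact absurd (Finset.mem_univ _) h
    | algebraMap k =>
      obtain ⟨b, rfl⟩ := hK k
      have := mono_mem (p := p) (x := x) (algebraMap K A b) (fun _ => 0)
      rw [map_pow]
      simpa using this
    | add b c _ _ hb hc => exact add_mem hb hc
    | mul b c _ _ hb hc => exact T_mul hb hc
  -- `C` is local
  have hloc : IsLocalHom (algebraMap C A) := by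
    constructor
    intro c hc
    have hc' : IsUnit (c : A) := hc
    obtain ⟨v, hv⟩ := hc'.exists_right_inv
    rw [isUnit_iff_exists_inv]
    refine ⟨⟨v ^ p, hpow v⟩ * c ^ (p - 1), ?_⟩
    apply Subtype.ext
    show (c : A) * (v ^ p * (c : A) ^ (p - 1)) = 1
    have h1 : (c : A) * (v ^ p * (c : A) ^ (p - 1)) = v ^ p * ((c : A) ^ (p - 1) * c) := by ring
    rw [h1, ← pow_succ, Nat.sub_add_cancel hp0, ← mul_pow, mul_comm v, hv, one_pow]
  have : IsLocalRing C := RingHom.domain_isLocalRing (algebraMap C A)
  -- finiteness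
  have : Module.Finite C A := by
    classical
    refine ⟨⟨Finset.univ.image g, ?_⟩⟩
    rw [eq_top_iff]
    intro b _
    obtain ⟨c, rfl⟩ := hg b
    refine sum_mem fun j _ => ?_
    have h1 : c j ^ p * g j = (⟨c j ^ p, hpow (c j)⟩ : C) • g j := rfl
    rw [h1]
    exact Submodule.smul_mem _ _ (Submodule.subset_span (by simp))
  -- no differentials
  have : Subsingleton (Ω[A⁄C]) := by
    refine subsingleton_of_forall_eq 0 fun ω => ?_
    obtain ⟨η, rfl⟩ := KaehlerDifferential.map_surjective K C A ω
    have hη : η ∈ Submodule.span A (Set.range fun i => KaehlerDifferential.D K A (x i)) := by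
      rw [hx]
      exact Submodule.mem_top
    induction hη using Submodule.span_induction with
    | mem y hy =>
      obtain ⟨i, rfl⟩ := hy
      show KaehlerDifferential.map K C A A (KaehlerDifferential.D K A (x i)) = 0
      rw [KaehlerDifferential.map_D]
      exact (KaehlerDifferential.D C A).map_algebraMap (⟨x i, hxC i⟩ : C)
    | zero => exact map_zero _
    | add y z _ _ hy hz => rw [map_add, hy, hz, add_zero]
    | smul r y _ hy => rw [map_smul, hy, smul_zero]
  have : Algebra.FormallyUnramified C A := ⟨inferInstance⟩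
  have hmap := Algebra.FormallyUnramified.map_maximalIdeal (R := C) (S := A)
  -- the residue fields are equal
  have : CharP (ResidueField C) p :=
    charP_of_injective_algebraMap (algebraMap K (ResidueField C)).injective p
  have : ExpChar (ResidueField C) p := ExpChar.prime hp.out
  have : IsPurelyInseparable (ResidueField C) (ResidueField A) := by
    rw [isPurelyInseparable_iff_pow_mem (ResidueField C) p]
    intro y
    obtain ⟨b, rfl⟩ := residue_surjective y
    refine ⟨1, residue C ⟨b ^ p, hpow b⟩, ?_⟩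
    rw [pow_one, ← map_pow]
    rfl
  have hres : Function.Surjective (algebraMap (ResidueField C) (ResidueField A)) :=
    IsPurelyInseparable.surjective_algebraMap_of_isSeparable _ _
  -- Nakayama
  have hnak : (⊤ : Submodule C A) ≤ Submodule.span C {(1 : A)} := by
    refine Submodule.le_of_le_smul_of_le_jacobson_bot (I := maximalIdeal C)
      Module.Finite.fg_top (maximalIdeal_le_jacobson _) ?_
    intro b _
    obtain ⟨c', hc'⟩ := hres (residue A b)
    obtain ⟨c, rfl⟩ := residue_surjective c'
    have h1 : residue A (algebraMap C A c) = residue A b := hc'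
    have h2 : b - algebraMap C A c ∈ maximalIdeal A := by
      rw [← residue_eq_zero_iff, map_sub, h1, sub_self]
    have h3 : b - algebraMap C A c ∈ maximalIdeal C • (⊤ : Submodule C A) := by
      rw [Ideal.smul_top_eq_map, hmap]
      exact h2
    have h4 : b = algebraMap C A c + (b - algebraMap C A c) := by ring
    rw [h4]
    refine Submodule.add_mem_sup ?_ h3
    rw [Submodule.mem_span_singleton]
    exact ⟨c, (Algebra.algebraMap_eq_smul_one c).symm⟩
  have ha : a ∈ C := by
    have h1 := hnak (Submodule.mem_top : a ∈ ⊤)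
    rw [Submodule.mem_span_singleton] at h1
    obtain ⟨c, hc⟩ := h1
    rw [← hc, ← Algebra.algebraMap_eq_smul_one]
    exact c.2
  exact mem_T.1 (hCT a ha)

end Pool.Agent.Q259.NP
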